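import Pool.Agent.helper32.CK.Defs

set_option autoImplicit false

/-!
# ck:K1: Schur's lemma and approximate units for irreducible representations
-/

namespace Pool.Agent.helper32.CK

open scoped InnerProductSpace ComplexOrder
open Filter Topology

universe u v w

section Irr
variable {B : Type u} [NonUnitalCStarAlgebra B] {H : Type v} [NormedAddCommGroup H]
  [InnerProductSpace ℂ H] [CompleteSpace H] {π : B →⋆ₙₐ[ℂ] (H →L[ℂ] H)}

theorem K1_nontrivial (hπ : Irr π) : Nontrivial H := by
  obtain ⟨⟨a, ha⟩, _⟩ := hπ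
  by_contra h
  rw [not_nontrivial_iff_subsingleton] at h
  exact ha (by ext v; exact Subsingleton.elim _ _)

theorem K1_ker (hπ : Irr π) (S R : H →L[ℂ] H) (hS : ∀ b, Commute S (π b)) (hR : S * R = 0) :
    S = 0 ∨ R = 0 := by
  rcases hπ.2 S.ker (ContinuousLinearMap.isClosed_ker S) (fun a v hv => by
    rw [LinearMap.mem_ker] at hv ⊢
    have h : S (π a v) = π a (S v) := congrArg (fun T : H →L[ℂ] H => T v) (hS a).eq
    have h2 : S v = 0 := hv
    rw [h2, map_zero] at h
    exact h) with h | h
  · right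
    ext v
    have h1 : R v ∈ S.ker := by
      rw [LinearMap.mem_ker]
      have := congrArg (fun T : H →L[ℂ] H => T v) hR
      simpa using this
    rw [h, Submodule.mem_bot] at h1
    simpa using h1
  · left
    ext v
    have h1 : v ∈ S.ker := by rw [h]; trivial
    simpa using h1

theorem K1_sa (hπ : Irr π) (S : H →L[ℂ] H) (hsa : IsSelfAdjoint S)
    (hS : ∀ b, Commute S (π b)) : ∃ c : ℝ, S = algebraMap ℝ (H →L[ℂ] H) c := by
  have := K1_nontrivial hπ
  obtain ⟨c, hc⟩ := ContinuousFunctionalCalculus.spectrum_nonempty (R := ℝ) S hsa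
  by_cases h : ∀ μ ∈ spectrum ℝ S, μ = c
  · refine ⟨c, ?_⟩
    have h1 : cfc (fun t : ℝ => t) S = cfc (fun _ : ℝ => c) S := cfc_congr (fun μ hμ => h μ hμ)
    rw [cfc_id' ℝ S, cfc_const c S] at h1
    exact h1
  · exfalso
    push Not at h
    obtain ⟨μ, hμ, hne⟩ := h
    have key : ∀ f : ℝ → ℝ, Continuous f → ∀ x ∈ spectrum ℝ S, f x ≠ 0 → cfc f S ≠ 0 := by
      intro f hf x hx hfx h0
      have h1 := cfc_map_spectrum f S hsa hf.continuousOn
      rw [h0, spectrum.zero_eq] at h1
      have h2 : f x ∈ ({0} : Set ℝ) := by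
        rw [h1]
        exact ⟨x, hx, rfl⟩
      exact hfx h2
    have hr : 0 < |c - μ| / 2 := by
      have : c - μ ≠ 0 := sub_ne_zero.2 (Ne.symm hne)
      positivity
    have c1 : Continuous (fun t : ℝ => max 0 (|c - μ| / 2 - |t - c|)) := by fun_prop
    have c2 : Continuous (fun t : ℝ => max 0 (|c - μ| / 2 - |t - μ|)) := by fun_prop
    have n1 := key _ c1 c hc (by
      simp only [sub_self, abs_zero, sub_zero]
      rw [max_eq_right hr.le]
      exact hr.ne')
    have n2 := key _ c2 μ hμ (by
      simp only [sub_self, abs_zero, sub_zero]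
      rw [max_eq_right hr.le]
      exact hr.ne')
    have hprod : cfc (fun t : ℝ => max 0 (|c - μ| / 2 - |t - c|)) S *
        cfc (fun t : ℝ => max 0 (|c - μ| / 2 - |t - μ|)) S = 0 := by
      rw [← cfc_mul _ _ S c1.continuousOn c2.continuousOn, ← cfc_zero ℝ S]
      congr 1
      funext t
      rcases le_or_gt (|c - μ| / 2) |t - c| with h1 | h1
      · rw [max_eq_left (by linarith), zero_mul]
        rfl
      · have h2 : |c - μ| / 2 ≤ |t - μ| := by
          have h3 : |c - μ| ≤ |t - c| + |t - μ| := by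
            have := abs_sub_le c t μ
            rw [abs_sub_comm c t] at this
            exact this
          linarith
        rw [max_eq_left (by linarith : |c - μ| / 2 - |t - μ| ≤ 0), mul_zero]
        rfl
    rcases K1_ker hπ _ _ (fun b => (hS b).cfc_real _) hprod with h1 | h1
    · exact n1 h1
    · exact n2 h1

theorem Irr.schur (hπ : Irr π) (T : H →L[ℂ] H) (hT : ∀ b, Commute T (π b)) :
    ∃ c : ℂ, T = c • 1 := by
  have hT' : ∀ b, Commute (star T) (π b) := by
    intro b
    have h := (hT (star b)).star_star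
    rw [map_star, star_star] at h
    exact h
  obtain ⟨c1, h1⟩ := K1_sa hπ (realPart T : H →L[ℂ] H) (realPart T).2 (fun b => by
    rw [realPart_apply_coe]
    exact ((hT b).add_left (hT' b)).smul_left _)
  obtain ⟨c2, h2⟩ := K1_sa hπ (imaginaryPart T : H →L[ℂ] H) (imaginaryPart T).2 (fun b => by
    rw [imaginaryPart_apply_coe]
    exact ((((hT b).sub_left (hT' b)).smul_left _).smul_left _))
  refine ⟨(c1 : ℂ) + (c2 : ℂ) * Complex.I, ?_⟩
  have h3 := realPart_add_I_smul_imaginaryPart T
  rw [h1, h2] at h3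
  rw [← h3]
  ext v
  simp [Algebra.algebraMap_eq_smul_one, add_smul, mul_smul, mul_comm]

theorem K1_norm (b : B) (v : H) : ‖π b v‖ ≤ ‖b‖ * ‖v‖ :=
  ((π b).le_opNorm v).trans (mul_le_mul_of_nonneg_right (NonUnitalStarAlgHom.norm_apply_le π b)
    (norm_nonneg v))

theorem Irr.approx_one (hπ : Irr π) (F : Finset H) (κ : ℝ) (hκ : 0 < κ) :
    ∃ b : B, IsSelfAdjoint b ∧ ‖b‖ ≤ 1 ∧ ∀ v ∈ F, ‖π b v - v‖ ≤ κ := by
  let _ := CStarAlgebra.spectralOrder B
  have _ := CStarAlgebra.spectralOrderedRing B
  have hl := CStarAlgebra.increasingApproximateUnit B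
  have hne : (CStarAlgebra.approximateUnit B).NeBot := hl.neBot
  have h1 : ∀ᶠ e in CStarAlgebra.approximateUnit B, ‖e‖ ≤ 1 := hl.eventually_norm
  -- the closed span of the range
  have hN : (Submodule.span ℂ {w : H | ∃ b v, w = π b v}).topologicalClosure = ⊤ := by
    rcases hπ.2 _ (Submodule.isClosed_topologicalClosure
        (Submodule.span ℂ {w : H | ∃ b v, w = π b v})) (fun a v _ =>
        Submodule.le_topologicalClosure _ (Submodule.subset_span ⟨a, v, rfl⟩)) with h | h
    · exfalso
      obtain ⟨a, ha⟩ := hπ.1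
      apply ha
      ext v
      have h2 : π a v ∈ (Submodule.span ℂ {w : H | ∃ b v, w = π b v}).topologicalClosure :=
        Submodule.le_topologicalClosure _ (Submodule.subset_span ⟨a, v, rfl⟩)
      rw [h, Submodule.mem_bot] at h2
      simpa using h2
    · exact h
  have h2 : ∀ w ∈ Submodule.span ℂ {w : H | ∃ b v, w = π b v}, ∀ r : ℝ, 0 < r →
      ∀ᶠ e in CStarAlgebra.approximateUnit B, ‖π e w - w‖ ≤ r := by
    intro w hw
    induction hw using Submodule.span_induction with
    | mem x hx =>
      obtain ⟨b, v, rfl⟩ := hx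
      intro r hr
      have h3 := hl.tendsto_mul_right b
      have hr' : 0 < r / (‖v‖ + 1) := by positivity
      filter_upwards [Metric.tendsto_nhds.1 h3 _ hr'] with e he
      have h4 : π e (π b v) - π b v = π (e * b - b) v := by
        rw [map_sub, map_mul]
        rfl
      rw [h4]
      refine (K1_norm _ _).trans ?_
      rw [dist_eq_norm] at he
      calc ‖e * b - b‖ * ‖v‖ ≤ (r / (‖v‖ + 1)) * (‖v‖ + 1) := by
            apply mul_le_mul he.le (by linarith) (norm_nonneg _) hr'.le
        _ = r := by field_simp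
    | zero =>
      intro r hr
      filter_upwards with e
      simpa using hr.le
    | add x y _ _ hx hy =>
      intro r hr
      filter_upwards [hx (r / 2) (by linarith), hy (r / 2) (by linarith)] with e h3 h4
      have h5 : π e (x + y) - (x + y) = (π e x - x) + (π e y - y) := by
        rw [map_add]; abel
      rw [h5]
      refine (norm_add_le _ _).trans ?_
      linarith
    | smul a x _ hx =>
      intro r hr
      have hr' : 0 < r / (‖a‖ + 1) := by positivity
      filter_upwards [hx _ hr'] with e h3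
      have h5 : π e (a • x) - a • x = a • (π e x - x) := by
        rw [map_smul, smul_sub]
      rw [h5, norm_smul]
      calc ‖a‖ * ‖π e x - x‖ ≤ (‖a‖ + 1) * (r / (‖a‖ + 1)) := by
            apply mul_le_mul (by linarith) h3 (norm_nonneg _) (by positivity)
        _ = r := by field_simp
  have h3 : ∀ v : H, ∀ r : ℝ, 0 < r →
      ∀ᶠ e in CStarAlgebra.approximateUnit B, ‖π e v - v‖ ≤ r := by
    intro v r hr
    have hv : v ∈ (Submodule.span ℂ {w : H | ∃ b v, w = π b v}).topologicalClosure := by
      rw [hN]; trivial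
    obtain ⟨w, hw, hd⟩ := Metric.mem_closure_iff.1 hv (r / 3) (by linarith)
    filter_upwards [h2 w hw (r / 3) (by linarith), h1] with e h4 h5
    rw [dist_eq_norm] at hd
    have h6 : π e v - v = π e (v - w) + (π e w - w) - (v - w) := by
      rw [map_sub]; abel
    have h7 : ‖π e (v - w)‖ ≤ ‖v - w‖ := by
      refine (K1_norm _ _).trans ?_
      nlinarith [norm_nonneg (v - w)]
    rw [h6]
    refine (norm_sub_le _ _).trans ?_
    have := norm_add_le (π e (v - w)) (π e w - w)
    linarith
  have h4 : ∀ᶠ e in CStarAlgebra.approximateUnit B, ∀ v ∈ F, ‖π e v - v‖ ≤ κ :=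
    (Filter.eventually_all_finset F).2 (fun v _ => h3 v κ hκ)
  obtain ⟨e, he1, he2, he3⟩ := (h4.and (h1.and hl.eventually_isSelfAdjoint)).exists
  exact ⟨e, he3, he2, he1⟩

end Irr

end Pool.Agent.helper32.CK
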