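import Pool.Agent.helper26.CK.K1
import Pool.Agent.helper71.CK.K2

set_option autoImplicit false

/-!
# ck:K3: Kaplansky's density theorem for selfadjoint contractions
-/

namespace Pool.Agent.helper32.CK

open scoped InnerProductSpace ComplexOrder
open Filter Topology

universe u v w

section Irr
variable {B : Type u} [NonUnitalCStarAlgebra B] {H : Type v} [NormedAddCommGroup H]
  [InnerProductSpace ℂ H] [CompleteSpace H] {π : B →⋆ₙₐ[ℂ] (H →L[ℂ] H)}

/-- `1 / (1 + t ^ 2)` -/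
noncomputable def K3R (t : ℝ) : ℝ := (1 + t ^ 2)⁻¹

/-- `2 t / (1 + t ^ 2)` -/
noncomputable def K3f (t : ℝ) : ℝ := 2 * ((1 + t ^ 2)⁻¹ * t)

/-- the inverse of `K3f` on `[-1, 1]` -/
noncomputable def K3g (t : ℝ) : ℝ := t / (1 + √(1 - t ^ 2))

theorem K3R_cont : Continuous K3R := by
  unfold K3R
  refine Continuous.inv₀ (by fun_prop) (fun t => ?_)
  positivity

theorem K3f_cont : Continuous K3f := by
  unfold K3f
  refine continuous_const.mul (Continuous.mul (Continuous.inv₀ (by fun_prop) (fun t => ?_))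
    continuous_id)
  positivity

theorem K3g_cont : Continuous K3g := by
  unfold K3g
  refine Continuous.div continuous_id (by fun_prop) (fun t => ?_)
  positivity

theorem K3fg (t : ℝ) (ht : |t| ≤ 1) : K3f (K3g t) = t := by
  unfold K3f K3g
  have h0 : 0 ≤ 1 - t ^ 2 := by
    have := (sq_le_one_iff_abs_le_one t).2 ht
    linarith
  have h1 : √(1 - t ^ 2) ^ 2 = 1 - t ^ 2 := Real.sq_sqrt h0
  have h2 : 0 ≤ √(1 - t ^ 2) := Real.sqrt_nonneg _
  generalize √(1 - t ^ 2) = s at h1 h2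
  have h3 : (1 + s) ≠ 0 := by positivity
  have h4 : 1 + (t / (1 + s)) ^ 2 = 2 / (1 + s) := by
    field_simp
    nlinarith
  rw [h4]
  field_simp

theorem K3f_abs (t : ℝ) : |K3f t| ≤ 1 := by
  unfold K3f
  have h : (0 : ℝ) < 1 + t ^ 2 := by positivity
  rw [abs_le]
  constructor
  · rw [← sub_nonneg]
    have : 2 * ((1 + t ^ 2)⁻¹ * t) - -1 = (1 + t) ^ 2 / (1 + t ^ 2) := by field_simp; ring
    rw [this]
    positivity
  · rw [← sub_nonneg]
    have : 1 - 2 * ((1 + t ^ 2)⁻¹ * t) = (1 - t) ^ 2 / (1 + t ^ 2) := by field_simp; ring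
    rw [this]
    positivity

theorem K3R_abs (t : ℝ) : |K3R t| ≤ 1 := by
  unfold K3R
  rw [abs_of_nonneg (by positivity)]
  apply inv_le_one_of_one_le₀
  nlinarith [sq_nonneg t]

theorem K3_one (y : H →L[ℂ] H) (hy : IsSelfAdjoint y) : cfc K3R y * (1 + y * y) = 1 ∧
    (1 + y * y) * cfc K3R y = 1 := by
  have h1 : (1 + y * y : H →L[ℂ] H) = cfc (fun t : ℝ => 1 + t ^ 2) y := by
    rw [cfc_const_add (1 : ℝ) (fun t => t ^ 2) y, cfc_pow_id (R := ℝ) y 2, map_one, sq]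
  have h2 : ∀ t : ℝ, K3R t * (1 + t ^ 2) = 1 := fun t => by
    unfold K3R
    have : (1 + t ^ 2) ≠ 0 := by positivity
    field_simp
  constructor
  · rw [h1, ← cfc_mul K3R (fun t : ℝ => 1 + t ^ 2) y K3R_cont.continuousOn (by fun_prop)]
    simp_rw [h2]
    exact cfc_one ℝ y
  · rw [h1, ← cfc_mul (fun t : ℝ => 1 + t ^ 2) K3R y (by fun_prop) K3R_cont.continuousOn]
    simp_rw [mul_comm _ (K3R _), h2]
    exact cfc_one ℝ y

theorem K3_norm (y : H →L[ℂ] H) : ‖cfc K3R y‖ ≤ 1 :=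
  norm_cfc_le zero_le_one (fun x _ => K3R_abs x)

theorem K3_f (y : H →L[ℂ] H) (hy : IsSelfAdjoint y) : cfc K3f y = (2 : ℝ) • (cfc K3R y * y) := by
  have h : (cfc K3R y * y) = cfc (fun t : ℝ => K3R t * t) y := by
    rw [cfc_mul K3R (fun t : ℝ => t) y K3R_cont.continuousOn (by fun_prop), cfc_id' ℝ y]
  rw [h, ← cfc_smul (2 : ℝ) (fun t : ℝ => K3R t * t) y
    (K3R_cont.mul continuous_id).continuousOn]
  rfl

theorem K3_f' (y : H →L[ℂ] H) (hy : IsSelfAdjoint y) : cfc K3f y = (2 : ℝ) • (y * cfc K3R y) := by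
  have h : (y * cfc K3R y) = cfc (fun t : ℝ => t * K3R t) y := by
    rw [cfc_mul (fun t : ℝ => t) K3R y (by fun_prop) K3R_cont.continuousOn, cfc_id' ℝ y]
  rw [h, ← cfc_smul (2 : ℝ) (fun t : ℝ => t * K3R t) y
    (continuous_id.mul K3R_cont).continuousOn]
  unfold K3f K3R
  simp_rw [mul_comm _ (_ : ℝ)⁻¹]
  rfl

theorem K3_diff (y S : H →L[ℂ] H) (hy : IsSelfAdjoint y) (hS : IsSelfAdjoint S) (v : H) (δ : ℝ)
    (h1 : ‖y (cfc K3R S v) - S (cfc K3R S v)‖ ≤ δ)
    (h2 : ‖y (S (cfc K3R S v)) - S (S (cfc K3R S v))‖ ≤ δ) :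
    ‖cfc K3f y v - cfc K3f S v‖ ≤ 3 * δ := by
  obtain ⟨u, hu⟩ : ∃ u, u = cfc K3R S v := ⟨_, rfl⟩
  rw [← hu] at h1 h2
  have e1 : v = u + S (S u) := by
    have h := congrArg (fun T : H →L[ℂ] H => T v) (K3_one S hS).2
    simp only [mul_apply_eq_comp, add_apply,
      one_apply_eq_self] at h
    rw [← hu] at h
    exact h.symm
  have e2 : cfc K3f S v = (2 : ℝ) • S u := by
    rw [K3_f' S hS, hu]
    rfl
  obtain ⟨A, hA⟩ : ∃ A, A = cfc K3R y := ⟨_, rfl⟩
  have e3 : S u = A (S u) + A (y (y (S u))) := by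
    have h := congrArg (fun T : H →L[ℂ] H => T (S u)) (K3_one y hy).1
    simp only [mul_apply_eq_comp, add_apply,
      one_apply_eq_self] at h
    rw [← hA, map_add] at h
    exact h.symm
  have e4 : cfc K3f y v = (2 : ℝ) • (A (y v)) := by
    rw [K3_f y hy, ← hA]
    rfl
  have e5 : cfc K3f y v - cfc K3f S v = (2 : ℝ) • (A (y u - S u)) -
      cfc K3f y (y (S u) - S (S u)) := by
    have h : ((2 : ℝ) • (A * y)) (y (S u) - S (S u)) = (2 : ℝ) • (A (y (y (S u) - S (S u)))) := rfl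
    rw [e4, e2, K3_f y hy, ← hA, h, ← smul_sub, ← smul_sub]
    congr 1
    have e7 : A (y v) = A (y u) + A (y (S (S u))) := by
      rw [e1]
      simp only [map_add]
    have e8 : A (y u) + A (y (S (S u))) - S u =
        A (y u) + A (y (S (S u))) - (A (S u) + A (y (y (S u)))) := by rw [← e3]
    rw [e7, e8]
    simp only [map_sub]
    abel
  rw [e5]
  refine (norm_sub_le _ _).trans ?_
  have n1 : ‖(2 : ℝ) • (A (y u - S u))‖ ≤ 2 * δ := by
    rw [norm_smul]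
    have : ‖A (y u - S u)‖ ≤ 1 * ‖y u - S u‖ :=
      (A.le_opNorm _).trans (mul_le_mul_of_nonneg_right (by rw [hA]; exact K3_norm y)
        (norm_nonneg _))
    rw [Real.norm_eq_abs, abs_of_pos (by norm_num : (0 : ℝ) < 2)]
    linarith
  have n2 : ‖cfc K3f y (y (S u) - S (S u))‖ ≤ δ := by
    have h3 : ‖cfc K3f y‖ ≤ 1 := norm_cfc_le zero_le_one (fun x _ => K3f_abs x)
    have : ‖cfc K3f y (y (S u) - S (S u))‖ ≤ 1 * ‖y (S u) - S (S u)‖ :=
      (ContinuousLinearMap.le_opNorm _ _).trans (mul_le_mul_of_nonneg_right h3 (norm_nonneg _))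
    linarith
  linarith

/-- Kaplansky for self-adjoint contractions -/
theorem Irr.kap (hπ : Irr π) (T : H →L[ℂ] H)
    (hT : IsSelfAdjoint T) (hT1 : ‖T‖ ≤ 1) (F : Finset H) (κ : ℝ) (hκ : 0 < κ) :
    ∃ b : B, IsSelfAdjoint b ∧ ‖b‖ ≤ 1 ∧ ∀ v ∈ F, ‖π b v - T v‖ ≤ κ := by
  classical
  have _ := K1_nontrivial hπ
  obtain ⟨S, hS⟩ : ∃ S, S = cfc K3g T := ⟨_, rfl⟩
  have hSsa : IsSelfAdjoint S := by
    rw [hS]
    exact cfc_predicate K3g T
  have hfS : cfc K3f S = T := by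
    rw [hS, ← cfc_comp K3f K3g T hT K3f_cont.continuousOn K3g_cont.continuousOn]
    conv_rhs => rw [← cfc_id ℝ T]
    apply cfc_congr
    intro t ht
    simp only [Function.comp_apply, id]
    apply K3fg
    have h1 := spectrum.norm_le_norm_of_mem ht
    exact h1.trans hT1
  obtain ⟨b, hb⟩ := hπ.dens S ((F.image (fun v => cfc K3R S v)) ∪
    (F.image (fun v => S (cfc K3R S v)))) (κ / 3) (by linarith)
  obtain ⟨b0, hb0⟩ : ∃ b0, b0 = (2⁻¹ : ℂ) • (b + star b) := ⟨_, rfl⟩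
  have hb0sa : IsSelfAdjoint b0 := by
    rw [IsSelfAdjoint, hb0, star_smul, star_add, star_star, add_comm]
    simp
  have hπ0 : IsSelfAdjoint (π b0) := hb0sa.map π
  have hnear : ∀ w, (‖π b w - S w‖ ≤ κ / 3 ∧ ‖π (star b) w - (star S) w‖ ≤ κ / 3) →
      ‖π b0 w - S w‖ ≤ κ / 3 := by
    intro w hw
    have h1 : star S = S := hSsa
    rw [h1] at hw
    have h2 : π b0 w - S w = (2⁻¹ : ℂ) • ((π b w - S w) + (π (star b) w - S w)) := by
      rw [hb0, map_smul, map_add]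
      simp only [smul_apply, add_apply]
      have h3 : S w = (2⁻¹ : ℂ) • (S w + S w) := by
        rw [← two_smul ℂ (S w), smul_smul]
        norm_num
      nth_rewrite 1 [h3]
      rw [← smul_sub]
      congr 1
      abel
    rw [h2, norm_smul]
    have h4 := norm_add_le (π b w - S w) (π (star b) w - S w)
    have h5 : ‖(2⁻¹ : ℂ)‖ = 1 / 2 := by norm_num
    rw [h5]
    linarith [hw.1, hw.2]
  refine ⟨cfcₙ K3f b0, cfcₙ_predicate K3f b0, norm_cfcₙ_le (fun x _ => K3f_abs x), ?_⟩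
  intro v hv
  have hf0 : K3f 0 = 0 := by unfold K3f; simp
  have h6 : π (cfcₙ K3f b0) = cfc K3f (π b0) := by
    rw [NonUnitalStarAlgHom.map_cfcₙ π K3f b0 K3f_cont.continuousOn hf0
      (AddMonoidHomClass.continuous_of_bound π 1 (fun x => by
        rw [one_mul]; exact NonUnitalStarAlgHom.norm_apply_le π x)) hb0sa hπ0]
    exact cfcₙ_eq_cfc K3f_cont.continuousOn hf0
  rw [h6, ← hfS]
  have h7 := K3_diff (π b0) S hπ0 hSsa v (κ / 3)
    (hnear _ (hb _ (Finset.mem_union_left _ (Finset.mem_image_of_mem _ hv))))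
    (hnear _ (hb _ (Finset.mem_union_right _ (Finset.mem_image_of_mem _ hv))))
  linarith

end Irr

end Pool.Agent.helper32.CK
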