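import Pool.Agent.helper26.CK.K3

set_option autoImplicit false

/-!
# ck:K3b: exact transitivity of irreducible representations, one vector
-/

namespace Pool.Agent.helper32.CK

open scoped InnerProductSpace ComplexOrder
open Filter Topology

universe u v w

section Irr
variable {B : Type u} [NonUnitalCStarAlgebra B] {H : Type v} [NormedAddCommGroup H]
  [InnerProductSpace ℂ H] [CompleteSpace H] {π : B →⋆ₙₐ[ℂ] (H →L[ℂ] H)}

/-- a selfadjoint unitary moving `ξ` to `z` -/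
theorem K3b_refl (ξ z : H) (hξ : ‖ξ‖ = 1) (hz : ‖z‖ = 1) (hr : (⟪ξ, z⟫_ℂ).im = 0) :
    ∃ T : H →L[ℂ] H, IsSelfAdjoint T ∧ ‖T‖ ≤ 1 ∧ T ξ = z := by
  obtain ⟨u, hu⟩ : ∃ u, u = ξ + z := ⟨_, rfl⟩
  refine ⟨(2 : ℂ) • (ℂ ∙ u).starProjection - 1, ?_, ?_, ?_⟩
  · refine IsSelfAdjoint.sub ?_ (IsSelfAdjoint.one _)
    rw [IsSelfAdjoint, star_smul, (isSelfAdjoint_starProjection (ℂ ∙ u)).star_eq]
    simp
  · refine ContinuousLinearMap.opNorm_le_bound _ zero_le_one (fun x => ?_)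
    have h : ((2 : ℂ) • (ℂ ∙ u).starProjection - 1) x = (ℂ ∙ u).reflection x := by
      rw [Submodule.reflection_apply]
      simp [two_smul]
    rw [h, LinearIsometryEquiv.norm_map, one_mul]
  · have h : ((2 : ℂ) • (ℂ ∙ u).starProjection - 1) ξ = (2 : ℂ) • (ℂ ∙ u).starProjection ξ - ξ := rfl
    rw [h]
    have hzr : ⟪z, ξ⟫_ℂ = ⟪ξ, z⟫_ℂ := by
      rw [← inner_conj_symm z ξ]
      exact Complex.conj_eq_iff_im.2 hr
    have h1 : ⟪u, ξ⟫_ℂ = 1 + ⟪ξ, z⟫_ℂ := by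
      rw [hu, inner_add_left, hzr, inner_self_eq_one_of_norm_eq_one hξ]
    have h2 : ⟪u, u⟫_ℂ = 2 * (1 + ⟪ξ, z⟫_ℂ) := by
      rw [hu, inner_add_left, inner_add_right, inner_add_right, hzr,
        inner_self_eq_one_of_norm_eq_one hξ, inner_self_eq_one_of_norm_eq_one hz]
      ring
    have h4 := Submodule.smul_starProjection_singleton ℂ (v := u) ξ
    rw [RCLike.ofReal_pow, ← inner_self_eq_norm_sq_to_K, h1, h2] at h4
    by_cases h0 : u = 0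
    · have h5 : (ℂ ∙ u).starProjection ξ = 0 := by
        rw [h0]
        simp
      rw [h5, smul_zero, zero_sub]
      rw [h0] at hu
      exact (neg_eq_of_add_eq_zero_right hu.symm)
    · have h6 : (1 + ⟪ξ, z⟫_ℂ) ≠ 0 := by
        intro h7
        apply inner_self_ne_zero (𝕜 := ℂ) |>.2 h0
        rw [h2, h7, mul_zero]
      have h8 : (1 + ⟪ξ, z⟫_ℂ) • ((2 : ℂ) • (ℂ ∙ u).starProjection ξ) = (1 + ⟪ξ, z⟫_ℂ) • u := by
        rw [← h4, smul_smul, mul_comm]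
      have h9 := smul_right_injective H h6 h8
      rw [h9, hu]
      abel

/-- contractions, one unit vector -/
theorem K3b_unit (hπ : Irr π) (ξ : H) (hξ : ‖ξ‖ = 1) (y : H)
    (hy : ‖y‖ = 1) (κ : ℝ) (hκ : 0 < κ) : ∃ b : B, ‖b‖ ≤ 1 ∧ ‖π b ξ - y‖ ≤ κ := by
  obtain ⟨c, hc, hci⟩ : ∃ c : ℂ, ‖c‖ = 1 ∧ (c * ⟪ξ, y⟫_ℂ).im = 0 := by
    by_cases h : ⟪ξ, y⟫_ℂ = 0
    · exact ⟨1, by simp, by rw [h]; simp⟩
    · have hn : ‖⟪ξ, y⟫_ℂ‖ ≠ 0 := norm_ne_zero_iff.2 h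
      refine ⟨(starRingEnd ℂ) ⟪ξ, y⟫_ℂ / ‖⟪ξ, y⟫_ℂ‖, ?_, ?_⟩
      · rw [norm_div, RCLike.norm_conj, Complex.norm_real, norm_norm, div_self hn]
      · rw [div_mul_eq_mul_div, mul_comm, Complex.mul_conj, ← Complex.ofReal_div]
        exact Complex.ofReal_im _
  have hc0 : c ≠ 0 := by
    intro h
    rw [h, norm_zero] at hc
    exact zero_ne_one hc
  obtain ⟨T, hT1, hT2, hT3⟩ := K3b_refl ξ (c • y) hξ (by rw [norm_smul, hc, hy, mul_one])
    (by rw [inner_smul_right]; exact hci)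
  obtain ⟨b, -, hb1, hb2⟩ := hπ.kap T hT1 hT2 {ξ} κ hκ
  refine ⟨c⁻¹ • b, ?_, ?_⟩
  · rw [norm_smul, norm_inv, hc, inv_one, one_mul]
    exact hb1
  · have h1 := hb2 ξ (Finset.mem_singleton_self _)
    rw [hT3] at h1
    have h2 : π (c⁻¹ • b) ξ - y = c⁻¹ • (π b ξ - c • y) := by
      rw [map_smul, smul_sub, smul_smul, inv_mul_cancel₀ hc0, one_smul]
      rfl
    rw [h2, norm_smul, norm_inv, hc, inv_one, one_mul]
    exact h1

/-- one vector, with the norm -/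
theorem K3b_scaled (hπ : Irr π) (ξ : H) (hξ : ‖ξ‖ = 1) (y : H) (κ : ℝ) (hκ : 0 < κ) :
    ∃ b : B, ‖b‖ ≤ ‖y‖ ∧ ‖π b ξ - y‖ ≤ κ := by
  by_cases h0 : y = 0
  · refine ⟨0, by simp [h0], ?_⟩
    rw [h0, map_zero]
    simpa using hκ.le
  · have hn : 0 < ‖y‖ := norm_pos_iff.2 h0
    obtain ⟨b, hb1, hb2⟩ := K3b_unit hπ ξ hξ ((‖y‖⁻¹ : ℂ) • y)
      (by rw [norm_smul, norm_inv, Complex.norm_real, norm_norm, inv_mul_cancel₀ hn.ne'])
      (κ / ‖y‖) (by positivity)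
    refine ⟨(‖y‖ : ℂ) • b, ?_, ?_⟩
    · rw [norm_smul, Complex.norm_real, norm_norm]
      nlinarith
    · have h2 : π ((‖y‖ : ℂ) • b) ξ - y = (‖y‖ : ℂ) • (π b ξ - (‖y‖⁻¹ : ℂ) • y) := by
        rw [map_smul, smul_sub, smul_smul, mul_inv_cancel₀ (by exact_mod_cast hn.ne'), one_smul]
        rfl
      rw [h2, norm_smul, Complex.norm_real, norm_norm]
      calc ‖y‖ * ‖π b ξ - (‖y‖⁻¹ : ℂ) • y‖ ≤ ‖y‖ * (κ / ‖y‖) :=
            mul_le_mul_of_nonneg_left hb2 hn.le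
        _ = κ := by field_simp

/-- contractions, one vector -/
theorem Irr.vec (hπ : Irr π) (ξ : H) (hξ : ‖ξ‖ = 1) (y : H)
    (hy : ‖y‖ ≤ 1) (κ : ℝ) (hκ : 0 < κ) : ∃ b : B, ‖b‖ ≤ 1 ∧ ‖π b ξ - y‖ ≤ κ := by
  obtain ⟨b, h1, h2⟩ := K3b_scaled hπ ξ hξ y κ hκ
  exact ⟨b, h1.trans hy, h2⟩

theorem K3b_norm (b : B) (v : H) : ‖π b v‖ ≤ ‖v‖ * ‖b‖ := by
  rw [mul_comm]
  exact K1_norm b v

/-- exact transitivity, one vector -/
theorem Irr.trans (hπ : Irr π) (ξ : H) (hξ : ‖ξ‖ = 1) (y : H) :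
    ∃ b : B, ‖b‖ ≤ 2 * ‖y‖ ∧ π b ξ = y := by
  have hstep : ∀ z : H, ∃ b : B, ‖b‖ ≤ ‖z‖ ∧ ‖z - π b ξ‖ ≤ ‖z‖ / 2 := by
    intro z
    by_cases h0 : z = 0
    · exact ⟨0, by simp [h0], by rw [h0, map_zero]; simp⟩
    · obtain ⟨b, h1, h2⟩ := K3b_scaled hπ ξ hξ z (‖z‖ / 2) (by
        have := norm_pos_iff.2 h0
        linarith)
      exact ⟨b, h1, by rw [norm_sub_rev]; exact h2⟩
  choose st hst1 hst2 using hstep
  obtain ⟨r, hr0, hr1⟩ : ∃ r : ℕ → H, r 0 = y ∧ ∀ n, r (n + 1) = r n - π (st (r n)) ξ :=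
    ⟨fun n => Nat.rec y (fun _ z => z - π (st z) ξ) n, rfl, fun n => rfl⟩
  have hrn : ∀ n, ‖r n‖ ≤ ‖y‖ * (1 / 2) ^ n := by
    intro n
    induction n with
    | zero => rw [hr0]; simp
    | succ n ih =>
      rw [hr1, pow_succ]
      have := hst2 (r n)
      linarith
  obtain ⟨b, hb⟩ : ∃ b : ℕ → B, b = fun n => st (r n) := ⟨_, rfl⟩
  have hbn : ∀ n, ‖b n‖ ≤ ‖y‖ * (1 / 2) ^ n := fun n => by
    rw [hb]
    exact (hst1 _).trans (hrn n)
  have hg : HasSum (fun n : ℕ => ‖y‖ * (1 / 2 : ℝ) ^ n) (‖y‖ * 2) :=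
    hasSum_geometric_two.mul_left _
  have hsum : Summable b := Summable.of_norm_bounded hg.summable hbn
  refine ⟨∑' n, b n, ?_, ?_⟩
  · rw [mul_comm]
    exact tsum_of_norm_bounded hg hbn
  · -- the partial sums
    let L : B →L[ℂ] H := LinearMap.mkContinuous
      { toFun := fun c => π c ξ
        map_add' := fun c d => by rw [map_add]; rfl
        map_smul' := fun c d => by rw [map_smul]; rfl } ‖ξ‖ (fun c => K3b_norm c ξ)
    have hL : ∀ c, L c = π c ξ := fun c => rfl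
    have h1 : Tendsto (fun n => L (∑ k ∈ Finset.range n, b k)) atTop (𝓝 (L (∑' n, b n))) :=
      (L.continuous.tendsto _).comp hsum.hasSum.tendsto_sum_nat
    have h2 : ∀ n, L (∑ k ∈ Finset.range n, b k) = y - r n := by
      intro n
      induction n with
      | zero => simp [hr0]
      | succ n ih =>
        rw [Finset.sum_range_succ, map_add, ih, hL, hr1, hb]
        abel
    have h3 : Tendsto r atTop (𝓝 0) := by
      apply squeeze_zero_norm hrn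
      have := (tendsto_pow_atTop_nhds_zero_of_lt_one (r := (1 / 2 : ℝ)) (by norm_num)
        (by norm_num)).const_mul ‖y‖
      simpa using this
    have h4 : Tendsto (fun n => y - r n) atTop (𝓝 y) := by
      have := h3.const_sub y
      simpa using this
    have h5 : Tendsto (fun n => L (∑ k ∈ Finset.range n, b k)) atTop (𝓝 y) := by
      refine h4.congr (fun n => (h2 n).symm)
    rw [← hL]
    exact tendsto_nhds_unique h1 h5

end Irr

end Pool.Agent.helper32.CK
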