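import Pool.Agent.helper26.CK.K3

set_option autoImplicit false

/-!
# ck:S1b: positive elements near the rank one projection
-/

namespace Pool.Agent.helper32.CK

open scoped InnerProductSpace ComplexOrder
open Filter Topology

universe u v w

/-- the rank one projection -/
theorem S1b_proj {H : Type w} [NormedAddCommGroup H] [InnerProductSpace ℂ H] [CompleteSpace H]
    (ξ : H) (hξ : ‖ξ‖ = 1) : ∃ T : H →L[ℂ] H, IsSelfAdjoint T ∧ ‖T‖ ≤ 1 ∧
      ∀ v, T v = ⟪ξ, v⟫_ℂ • ξ := by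
  refine ⟨(ℂ ∙ ξ).starProjection, isSelfAdjoint_starProjection _, ?_, fun v =>
    Submodule.starProjection_unit_singleton ℂ hξ v⟩
  exact Submodule.starProjection_norm_le _

theorem near_rank_one {A : Type u} {B : Type v} [NonUnitalCStarAlgebra A] [PartialOrder A]
    [StarOrderedRing A] [NonUnitalCStarAlgebra B] {H : Type w} [NormedAddCommGroup H]
    [InnerProductSpace ℂ H] [CompleteSpace H] {π : B →⋆ₙₐ[ℂ] (H →L[ℂ] H)} (hπ : Irr π)
    (φ : A → B) (ε : ℝ) (hε : 0 < ε) (hφ : IsEpsIso ε φ) (ξ : H)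
    (hξ : ‖ξ‖ = 1) (F : Finset H) : ∃ z : A, 0 ≤ z ∧ ‖z‖ ≤ 1 ∧ ∀ v ∈ F, ‖v‖ ≤ 1 →
      ‖π (φ z) v - ⟪ξ, v⟫_ℂ • ξ‖ ≤ 8 * ε := by
  classical
  obtain ⟨T, hT1, hT2, hT3⟩ := S1b_proj ξ hξ
  obtain ⟨b, hb1, hb2, hb3⟩ := hπ.kap T hT1 hT2 (insert ξ F) ε hε
  obtain ⟨e, he1, he2⟩ := hφ.onto b hb2
  -- `z = e* e`
  refine ⟨star e * e, star_mul_self_nonneg e, ?_, ?_⟩
  · rw [CStarRing.norm_star_mul_self]
    nlinarith [norm_nonneg e]
  intro v hv hv1
  obtain ⟨δ1, hδ1, hs⟩ := hφ.star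
  obtain ⟨δ2, hδ2, hm⟩ := hφ.mul
  have hne : ‖star e‖ ≤ 1 := by rw [norm_star]; exact he1
  -- norms of operators applied to vectors
  have hπn : ∀ (c : B) (w : H), ‖π c w‖ ≤ ‖c‖ * ‖w‖ := K1_norm
  have h1 := hm (star e) e hne he1
  have h2 := hs e he1
  have h3 : ‖star (φ e) - b‖ ≤ ε := by
    rw [← hb1.star_eq, ← star_sub, norm_star, norm_sub_rev]
    exact he2.le
  have hbv := hb3 v (Finset.mem_insert_of_mem hv)
  have hbξ := hb3 ξ (Finset.mem_insert_self _ _)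
  have hφe : ‖φ e‖ ≤ 1 := hφ.norm_le e he1
  have hTv : ‖T v‖ ≤ 1 := by
    have := T.le_opNorm v
    nlinarith [norm_nonneg v, norm_nonneg T]
  have hTξ : T ξ = ξ := by
    rw [hT3, inner_self_eq_one_of_norm_eq_one hξ, one_smul]
  have hTT : T (T v) = T v := by
    rw [hT3 v, map_smul, hTξ]
  -- decomposition
  have hdec : π (φ (star e * e)) v - ⟪ξ, v⟫_ℂ • ξ =
      π (φ (star e * e) - φ (star e) * φ e) v + π (φ (star e) - star (φ e)) (π (φ e) v) +
      π (star (φ e) - b) (π (φ e) v) + π b (π (φ e - b) v) + π b (π b v - T v) +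
      (π b (T v) - T (T v)) := by
    rw [hTT, ← hT3 v]
    simp only [map_sub, map_mul]
    simp only [sub_apply, mul_apply_eq_comp, map_sub]
    abel
  rw [hdec]
  have n1 : ‖π (φ (star e * e) - φ (star e) * φ e) v‖ ≤ ε := by
    refine (hπn _ _).trans ?_
    nlinarith [norm_nonneg v, norm_nonneg (φ (star e * e) - φ (star e) * φ e)]
  have n0 : ‖π (φ e) v‖ ≤ 1 := by
    refine (hπn _ _).trans ?_
    nlinarith [norm_nonneg v, norm_nonneg (φ e)]
  have n2 : ‖π (φ (star e) - star (φ e)) (π (φ e) v)‖ ≤ ε := by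
    refine (hπn _ _).trans ?_
    nlinarith [norm_nonneg (π (φ e) v), norm_nonneg (φ (star e) - star (φ e))]
  have n3 : ‖π (star (φ e) - b) (π (φ e) v)‖ ≤ ε := by
    refine (hπn _ _).trans ?_
    nlinarith [norm_nonneg (π (φ e) v), norm_nonneg (star (φ e) - b)]
  have n4 : ‖π b (π (φ e - b) v)‖ ≤ ε := by
    refine (hπn _ _).trans ?_
    have h4 : ‖π (φ e - b) v‖ ≤ ε := by
      refine (hπn _ _).trans ?_
      have h5 : ‖φ e - b‖ ≤ ε := by rw [norm_sub_rev]; exact he2.le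
      nlinarith [norm_nonneg v, norm_nonneg (φ e - b)]
    nlinarith [norm_nonneg (π (φ e - b) v), norm_nonneg b]
  have n5 : ‖π b (π b v - T v)‖ ≤ ε := by
    refine (hπn _ _).trans ?_
    nlinarith [norm_nonneg (π b v - T v), norm_nonneg b]
  have n6 : ‖π b (T v) - T (T v)‖ ≤ ε := by
    have h4 : π b (T v) - T (T v) = ⟪ξ, v⟫_ℂ • (π b ξ - T ξ) := by
      rw [hT3 v, map_smul, map_smul, smul_sub]
    have h5 : ‖⟪ξ, v⟫_ℂ‖ ≤ 1 := by
      refine (norm_inner_le_norm ξ v).trans ?_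
      rw [hξ, one_mul]
      exact hv1
    rw [h4, norm_smul]
    nlinarith [norm_nonneg (π b ξ - T ξ), norm_nonneg (⟪ξ, v⟫_ℂ)]
  refine (norm_add_le _ _).trans ?_
  refine (add_le_add_left (norm_add_le _ _) _).trans ?_
  refine (add_le_add_left (add_le_add_left (norm_add_le _ _) _) _).trans ?_
  refine (add_le_add_left (add_le_add_left (add_le_add_left (norm_add_le _ _) _) _) _).trans ?_
  refine (add_le_add_left (add_le_add_left (add_le_add_left (add_le_add_left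
    (norm_add_le _ _) _) _) _) _).trans ?_
  linarith

end Pool.Agent.helper32.CK
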